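import Mathlib

/-!
A finite simple involutive non-degenerate set-theoretic solution of the Yang-Baxter equation on
`Fin 3 × Fin 4` (12 points), for which the three sets of size 4 with constant first coordinate are
blocks of imprimitivity of the permutation group; and 4 does not divide 3.
-/

namespace Pool.Agent.Results.MP_9f168b_al.NonDividingBlock

universe u v

/-- `r × id` on `X × X × X`. -/
def r12 {X : Type u} (r : X × X → X × X) (t : X × X × X) : X × X × X :=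
  ((r (t.1, t.2.1)).1, (r (t.1, t.2.1)).2, t.2.2)

/-- `id × r` on `X × X × X`. -/
def r23 {X : Type u} (r : X × X → X × X) (t : X × X × X) : X × X × X :=
  (t.1, r t.2)

/-- Involutive non-degenerate set-theoretic solutions of the Yang-Baxter equation. -/
structure IsSolution {X : Type u} (r : X × X → X × X) : Prop where
  nonempty : Nonempty X
  braid : ∀ t : X × X × X, r12 r (r23 r (r12 r t)) = r23 r (r12 r (r23 r t))
  involutive : ∀ p : X × X, r (r p) = p
  sigma_bijective : ∀ x : X, Function.Bijective (fun y => (r (x, y)).1)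
  tau_bijective : ∀ y : X, Function.Bijective (fun x => (r (x, y)).2)

/-- Homomorphisms of solutions. -/
def IsHom {X : Type u} {X' : Type v} (r : X × X → X × X) (r' : X' × X' → X' × X')
    (f : X → X') : Prop :=
  ∀ x y : X, r' (f x, f y) = (f (r (x, y)).1, f (r (x, y)).2)

/-- Simple solutions: more than one point, and every epimorphism onto a solution is bijective or
has a one-point target. -/
def IsSimpleSolution {X : Type u} (r : X × X → X × X) : Prop :=
  IsSolution r ∧ Nontrivial X ∧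
    ∀ (X' : Type v) (r' : X' × X' → X' × X') (f : X → X'), IsSolution r' → IsHom r r' f →
      Function.Surjective f → Function.Bijective f ∨ Nat.card X' = 1

/-- The permutation group of a solution: the subgroup of `Sym X` generated by all `σ_x`. -/
def permGroup {X : Type u} (r : X × X → X × X) : Subgroup (Equiv.Perm X) :=
  Subgroup.closure {g | ∃ x : X, ∀ y : X, g y = (r (x, y)).1}

/-- Every element of the permutation group maps each set `{y} × Z` onto a set `{y'} × Z`. -/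
def HasBlocks {Y Z : Type u} (r : (Y × Z) × (Y × Z) → (Y × Z) × (Y × Z)) : Prop :=
  ∀ g ∈ permGroup r, ∀ y : Y, ∃ y' : Y, g '' {p | p.1 = y} = {p | p.1 = y'}

/-! ### The example -/

/-- Points of the example. -/
abbrev P : Type := Fin 3 × Fin 4

/-- Numbering of the points. -/
def enc (a : P) : ℕ := 4 * a.1.val + a.2.val

/-- Inverse numbering. -/
def dec (n : ℕ) : P := (Fin.ofNat 3 (n / 4), Fin.ofNat 4 n)

/-- Table of the maps `σ_x`. -/
def sgT : List (List ℕ) :=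
  [[7, 6, 5, 4, 1, 0, 3, 2, 11, 10, 9, 8],
   [1, 0, 3, 2, 11, 10, 9, 8, 7, 6, 5, 4],
   [10, 11, 8, 9, 0, 1, 2, 3, 6, 7, 4, 5],
   [6, 7, 4, 5, 10, 11, 8, 9, 0, 1, 2, 3],
   [5, 4, 7, 6, 3, 2, 1, 0, 11, 10, 9, 8],
   [3, 2, 1, 0, 11, 10, 9, 8, 5, 4, 7, 6],
   [10, 11, 8, 9, 2, 3, 0, 1, 4, 5, 6, 7],
   [4, 5, 6, 7, 10, 11, 8, 9, 2, 3, 0, 1],
   [7, 6, 5, 4, 3, 2, 1, 0, 9, 8, 11, 10],
   [3, 2, 1, 0, 9, 8, 11, 10, 7, 6, 5, 4],
   [8, 9, 10, 11, 2, 3, 0, 1, 6, 7, 4, 5],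
   [6, 7, 4, 5, 8, 9, 10, 11, 2, 3, 0, 1]]

/-- Table of the maps `τ_y`. -/
def taT : List (List ℕ) :=
  [[10, 0, 4, 5, 9, 3, 8, 2, 6, 7, 11, 1],
   [6, 4, 8, 9, 1, 11, 0, 10, 2, 3, 7, 5],
   [3, 9, 5, 4, 0, 10, 1, 11, 7, 6, 2, 8],
   [7, 5, 1, 0, 8, 2, 9, 3, 11, 10, 6, 4],
   [1, 11, 7, 5, 2, 3, 8, 9, 6, 4, 0, 10],
   [5, 7, 3, 9, 10, 11, 0, 1, 2, 8, 4, 6],
   [8, 2, 6, 4, 11, 10, 1, 0, 7, 5, 9, 3],
   [4, 6, 10, 0, 3, 2, 9, 8, 11, 1, 5, 7],
   [10, 11, 4, 6, 2, 8, 3, 9, 5, 7, 0, 1],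
   [6, 7, 8, 2, 10, 0, 11, 1, 9, 3, 4, 5],
   [3, 2, 5, 7, 11, 1, 10, 0, 4, 6, 9, 8],
   [7, 6, 1, 11, 3, 9, 2, 8, 0, 10, 5, 4]]

/-- `σ_a b`. -/
def sg (a b : P) : P := dec ((sgT.getD (enc a) []).getD (enc b) 0)

/-- `τ_b a`. -/
def ta (b a : P) : P := dec ((taT.getD (enc b) []).getD (enc a) 0)

/-- The solution. -/
def rr (p : P × P) : P × P := (sg p.1 p.2, ta p.2 p.1)

lemma rr_braid : ∀ t : P × P × P, r12 rr (r23 rr (r12 rr t)) = r23 rr (r12 rr (r23 rr t)) := by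
  decide +kernel

lemma rr_invol : ∀ p : P × P, rr (rr p) = p := by
  decide +kernel

lemma sg_inj : ∀ a b c : P, sg a b = sg a c → b = c := by
  decide +kernel

lemma ta_inj : ∀ a b c : P, ta a b = ta a c → b = c := by
  decide +kernel

lemma rr_solution : IsSolution rr where
  nonempty := ⟨(0, 0)⟩
  braid := rr_braid
  involutive := rr_invol
  sigma_bijective x := Finite.injective_iff_bijective.mp (fun b c h => sg_inj x b c h)
  tau_bijective y := Finite.injective_iff_bijective.mp (fun b c h => ta_inj y b c h)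

/-! ### Blocks -/

lemma sg_block : ∀ a b c : P, b.1 = c.1 → (sg a b).1 = (sg a c).1 := by
  decide +kernel

/-- The subgroup of permutations preserving equality of first coordinates. -/
def blockGroup : Subgroup (Equiv.Perm P) where
  carrier := {g | ∀ b c : P, (g b).1 = (g c).1 ↔ b.1 = c.1}
  mul_mem' := by
    intro g h hg hh b c
    rw [Equiv.Perm.mul_apply, Equiv.Perm.mul_apply]
    exact (hg _ _).trans (hh _ _)
  one_mem' := by
    intro b c
    simp
  inv_mem' := by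
    intro g hg b c
    have e : ∀ x : P, g (g⁻¹ x) = x := fun x => Equiv.apply_symm_apply g x
    have h1 := hg (g⁻¹ b) (g⁻¹ c)
    rw [e b, e c] at h1
    exact h1.symm

lemma sg_block_iff : ∀ a b c : P, (sg a b).1 = (sg a c).1 ↔ b.1 = c.1 := by
  decide +kernel

lemma permGroup_le : permGroup rr ≤ blockGroup := by
  unfold permGroup
  rw [Subgroup.closure_le]
  rintro g ⟨x, hx⟩ b c
  rw [hx b, hx c]
  exact sg_block_iff x b c

lemma rr_blocks : HasBlocks rr := by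
  intro g hg y
  have hg' := permGroup_le hg
  refine ⟨(g (y, 0)).1, ?_⟩
  ext p
  constructor
  · rintro ⟨q, hq, rfl⟩
    exact (hg' q (y, 0)).mpr hq
  · intro hp
    have e : g (g⁻¹ p) = p := Equiv.apply_symm_apply g p
    refine ⟨g⁻¹ p, ?_, e⟩
    refine (hg' (g⁻¹ p) (y, 0)).mp ?_
    rw [e]
    exact hp

/-! ### Simplicity -/

/-- Derivation steps for congruences. -/
inductive St : Type
  | lft (i n : ℕ) : St
  | rgt (i n : ℕ) : St
  | sym (i : ℕ) : St
  | trn (i j : ℕ) : St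

/-- Default pair. -/
def dflt : P × P := ((0, 0), (0, 0))

/-- Run a derivation. -/
def run : List St → List (P × P) → List (P × P)
  | [], s => s
  | St.lft i n :: l, s =>
      run l (s ++ [(sg (dec n) (s.getD i dflt).1, sg (dec n) (s.getD i dflt).2)])
  | St.rgt i n :: l, s =>
      run l (s ++ [(sg (s.getD i dflt).1 (dec n), sg (s.getD i dflt).2 (dec n))])
  | St.sym i :: l, s =>
      run l (s ++ [((s.getD i dflt).2, (s.getD i dflt).1)])
  | St.trn i j :: l, s =>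
      if (s.getD i dflt).2 = (s.getD j dflt).1 then
        run l (s ++ [((s.getD i dflt).1, (s.getD j dflt).2)])
      else run l s

/-- The derivations, for the pair `(0, q)`, `q = 1, …, 11`. -/
def derivs : List (List St) :=
  [[.rgt 0 0, .rgt 0 1, .rgt 0 4, .rgt 0 5, .sym 1, .sym 2, .trn 0 3, .trn 0 5, .lft 1 4, .rgt 1 10, .rgt 2 6, .rgt 2 7, .lft 2 10, .rgt 7 5, .trn 0 12],
   [.lft 0 0, .rgt 0 0, .rgt 0 1, .rgt 0 4, .rgt 0 5, .rgt 0 7, .rgt 0 9, .trn 0 6, .rgt 1 10, .lft 2 4, .lft 2 8, .rgt 2 10, .rgt 3 6, .lft 3 10, .rgt 4 1, .rgt 7 6],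
   [.lft 0 0, .rgt 0 0, .rgt 0 4, .rgt 0 5, .rgt 0 6, .trn 0 5, .rgt 1 9, .rgt 1 10, .lft 2 4, .rgt 2 10, .lft 3 1, .lft 4 9, .lft 5 9, .rgt 6 5, .trn 0 7, .trn 0 12],
   [.lft 0 0, .rgt 0 0, .rgt 0 1, .lft 0 2, .rgt 0 3, .rgt 0 5, .lft 0 10, .sym 4, .sym 7, .trn 0 5, .trn 6 9, .rgt 1 10, .rgt 2 10, .rgt 3 6, .rgt 3 8, .rgt 4 6, .rgt 4 10, .trn 0 15, .trn 0 17],
   [.lft 0 0, .rgt 0 1, .rgt 0 2, .rgt 0 3, .lft 0 4, .rgt 0 5, .lft 0 6, .rgt 0 7, .rgt 0 8, .rgt 0 10, .sym 1, .sym 2, .sym 4, .sym 9, .sym 10, .trn 0 3, .trn 0 5, .trn 0 14, .trn 6 7, .trn 11 15, .trn 17 8, .trn 17 12],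
   [.lft 0 0, .lft 0 1, .rgt 0 1, .lft 0 2, .rgt 0 5, .lft 0 6, .lft 0 7, .rgt 0 9, .lft 0 10, .rgt 0 10, .sym 1, .sym 2, .sym 6, .sym 7, .sym 9, .sym 10, .trn 0 3, .trn 0 16, .trn 5 11, .trn 13 4, .trn 13 8, .trn 15 14, .trn 18 12],
   [.lft 0 0, .rgt 0 0, .lft 0 2, .lft 0 4, .rgt 0 5, .lft 0 7, .rgt 0 10, .lft 0 11, .sym 4, .sym 7, .sym 8, .trn 0 1, .trn 0 2, .trn 5 11, .lft 2 4, .rgt 3 6, .rgt 6 7, .rgt 12 5],
   [.lft 0 1, .lft 0 3, .lft 0 4, .rgt 0 4, .rgt 0 5, .lft 0 7, .rgt 0 11, .sym 2, .sym 6, .trn 0 7, .trn 5 9, .rgt 1 1, .rgt 1 7, .rgt 2 6, .rgt 3 7, .rgt 4 1, .rgt 5 5, .trn 0 13, .trn 0 15],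
   [.lft 0 1, .rgt 0 3, .lft 0 4, .rgt 0 4, .rgt 0 5, .lft 0 7, .rgt 0 7, .rgt 0 8, .lft 0 10, .rgt 0 10, .sym 2, .sym 4, .sym 7, .sym 8, .trn 0 10, .trn 0 12, .trn 5 9, .trn 11 6, .trn 15 3, .trn 16 1, .trn 17 14, .trn 19 13],
   [.lft 0 1, .rgt 0 2, .lft 0 3, .rgt 0 3, .rgt 0 5, .lft 0 7, .rgt 0 9, .lft 0 10, .rgt 0 10, .lft 0 11, .sym 1, .sym 2, .sym 6, .sym 8, .sym 9, .sym 10, .trn 0 7, .trn 0 12, .trn 13 4, .trn 13 14, .trn 13 15, .trn 16 3, .trn 18 11],
   [.rgt 0 0, .lft 0 1, .rgt 0 1, .rgt 0 4, .rgt 0 5, .rgt 0 6, .rgt 0 8, .trn 0 7, .lft 1 4, .rgt 1 5, .rgt 1 10, .lft 1 11, .rgt 2 1, .rgt 3 6, .lft 4 1, .lft 6 9, .trn 0 10, .trn 0 12]]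

section Congruence

variable {X' : Type v} {r' : X' × X' → X' × X'} {f : P → X'}

lemma hom_left (hf : IsHom rr r' f) {a b : P} (t : P) (h : f a = f b) :
    f (sg t a) = f (sg t b) := by
  have h1 := hf t a
  have h2 := hf t b
  rw [h] at h1
  exact (Prod.ext_iff.mp (h1.symm.trans h2)).1

lemma hom_right (hf : IsHom rr r' f) {a b : P} (t : P) (h : f a = f b) :
    f (sg a t) = f (sg b t) := by
  have h1 := hf a t
  have h2 := hf b t
  rw [h] at h1
  exact (Prod.ext_iff.mp (h1.symm.trans h2)).1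

lemma getD_sound {s : List (P × P)} (hs : ∀ p ∈ s, f p.1 = f p.2) (i : ℕ) :
    f (s.getD i dflt).1 = f (s.getD i dflt).2 := by
  rw [List.getD_eq_getElem?_getD]
  cases h : s[i]? with
  | none => simp [dflt]
  | some p => exact hs p (List.mem_of_getElem? h)

lemma run_sound (hf : IsHom rr r' f) (l : List St) : ∀ s : List (P × P),
    (∀ p ∈ s, f p.1 = f p.2) → ∀ p ∈ run l s, f p.1 = f p.2 := by
  induction l with
  | nil => intro s hs p hp; exact hs p hp
  | cons st l ih =>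
    intro s hs
    have key : ∀ q : P × P, f q.1 = f q.2 → ∀ p ∈ s ++ [q], f p.1 = f p.2 := by
      intro q hq p hp
      rcases List.mem_append.mp hp with h | h
      · exact hs p h
      · rw [List.mem_singleton.mp h]; exact hq
    cases st with
    | lft i n => exact ih _ (key _ (hom_left hf _ (getD_sound hs i)))
    | rgt i n => exact ih _ (key _ (hom_right hf _ (getD_sound hs i)))
    | sym i => exact ih _ (key _ (getD_sound hs i).symm)
    | trn i j =>
      simp only [run]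
      split_ifs with h
      · refine ih _ (key _ ?_)
        have h1 := getD_sound hs i
        have h2 := getD_sound hs j
        simp only
        rw [h1, h, h2]
      · exact ih _ hs

end Congruence

lemma derivs_ok : ∀ q : P, q ≠ (0, 0) → ∀ x : P, x ≠ (0, 0) →
    ((0, 0), x) ∈ run (derivs.getD (enc q - 1) []) [((0, 0), q)] := by
  decide +kernel

lemma reach : ∀ p : P, ∃ s t : P, sg s (sg t p) = (0, 0) := by
  decide +kernel

lemma rr_simple : IsSimpleSolution.{0, v} rr := by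
  refine ⟨rr_solution, inferInstance, ?_⟩
  intro X' r' f _ hf hsurj
  by_cases hinj : Function.Injective f
  · exact Or.inl ⟨hinj, hsurj⟩
  · right
    rw [Function.not_injective_iff] at hinj
    obtain ⟨p, q, hpq, hne⟩ := hinj
    obtain ⟨s, t, hst⟩ := reach p
    have h1 : f (sg s (sg t p)) = f (sg s (sg t q)) := hom_left hf s (hom_left hf t hpq)
    rw [hst] at h1
    have hq : sg s (sg t q) ≠ (0, 0) := by
      intro h
      rw [← hst] at h
      exact hne (sg_inj _ _ _ (sg_inj _ _ _ h)).symm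
    have hall : ∀ x : P, f (0, 0) = f x := by
      intro x
      by_cases hx : x = (0, 0)
      · rw [hx]
      · exact run_sound hf _ _ (by simpa using h1) _ (derivs_ok _ hq x hx)
    rw [Nat.card_eq_one_iff_unique]
    refine ⟨⟨?_⟩, ⟨f (0, 0)⟩⟩
    intro a b
    obtain ⟨x, rfl⟩ := hsurj a
    obtain ⟨y, rfl⟩ := hsurj b
    rw [← hall x, ← hall y]

/-- There is a finite simple solution `(Y × Z, r)` with `|Y|, |Z| > 1`, for which the sets
`{y} × Z` are blocks of imprimitivity of the permutation group and `|Z|` does not divide `|Y|`. -/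
theorem result : ∃ (Y Z : Type) (_ : Fintype Y) (_ : Fintype Z)
    (r : (Y × Z) × (Y × Z) → (Y × Z) × (Y × Z)),
    1 < Fintype.card Y ∧ 1 < Fintype.card Z ∧ IsSimpleSolution.{0, v} r ∧ HasBlocks r ∧
      ¬ Fintype.card Z ∣ Fintype.card Y :=
  ⟨Fin 3, Fin 4, inferInstance, inferInstance, rr, by simp, by simp, rr_simple, rr_blocks,
    by simp⟩

end Pool.Agent.Results.MP_9f168b_al.NonDividingBlock
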